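import Mathlib

/-!
# A planar triangle-free graph with cograph chromatic number three (MP_b5aa49_co)

`G` consists of five copies of a planar triangle-free gadget `R` on 19 vertices, whose roots are
joined in a 5-cycle.  In every two-colouring of `R` without a monochromatic induced path on four
vertices the root has a neighbour of its own colour; a monochromatic edge of the 5-cycle together
with two such neighbours is then a monochromatic induced path on four vertices.
-/

namespace Pool.Agent.Results.MP_b5aa49_co.PlanarTriangleFreeThree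

open SimpleGraph

/-- A cograph: a graph with no induced path on four vertices. -/
def IsCograph {V : Type} (G : SimpleGraph V) : Prop := IsEmpty (pathGraph 4 ↪g G)

/-- `V(G)` can be partitioned into `k` (possibly empty) sets each inducing a cograph. -/
def CColorable {V : Type} (G : SimpleGraph V) (k : ℕ) : Prop :=
  ∃ χ : V → Fin k, ∀ i : Fin k, IsCograph (G.induce {v | χ v = i})

/-- The c-chromatic number `c(G)`. -/
noncomputable def cNum {V : Type} (G : SimpleGraph V) : ℕ := sInf {k | CColorable G k}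

/-- `G` has a straight-line drawing in the plane without crossings: the vertices are distinct
points, the segment of an edge contains no further vertex, and the segments of two distinct edges
meet at most in a common end vertex. -/
def IsPlanar {V : Type} (G : SimpleGraph V) : Prop :=
  ∃ f : V → ℝ × ℝ, Function.Injective f ∧
    (∀ a b c : V, G.Adj a b → f c ∈ segment ℝ (f a) (f b) → c = a ∨ c = b) ∧
    (∀ a b c d : V, G.Adj a b → G.Adj c d → s(a, b) ≠ s(c, d) →
      ∀ x ∈ segment ℝ (f a) (f b), x ∈ segment ℝ (f c) (f d) →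
        ∃ v : V, (v = a ∨ v = b) ∧ (v = c ∨ v = d) ∧ x = f v)

/-! ## Geometry -/

/-- The orientation of three points of the plane. -/
def ori (a b c : ℝ × ℝ) : ℝ :=
  (b.1 - a.1) * (c.2 - a.2) - (b.2 - a.2) * (c.1 - a.1)

lemma ori_seg {a b c d x : ℝ × ℝ} (hx : x ∈ segment ℝ c d) :
    ∃ s t : ℝ, 0 ≤ s ∧ 0 ≤ t ∧ s + t = 1 ∧ ori a b x = s * ori a b c + t * ori a b d := by
  obtain ⟨s, t, hs, ht, hst, rfl⟩ := hx
  refine ⟨s, t, hs, ht, hst, ?_⟩
  have : s = 1 - t := by linarith
  subst this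
  simp only [ori, Prod.fst_add, Prod.snd_add, Prod.smul_fst, Prod.smul_snd, smul_eq_mul]
  ring

lemma ori_self {a b x : ℝ × ℝ} (hx : x ∈ segment ℝ a b) : ori a b x = 0 := by
  obtain ⟨s, t, hs, ht, hst, h⟩ := ori_seg (a := a) (b := b) hx
  rw [h]
  simp only [ori]
  ring

lemma disj_pos {a b c d x : ℝ × ℝ} (h1 : 0 < ori a b c) (h2 : 0 < ori a b d)
    (hx : x ∈ segment ℝ a b) (hy : x ∈ segment ℝ c d) : False := by
  obtain ⟨s, t, hs, ht, hst, h⟩ := ori_seg (a := a) (b := b) hy
  rw [ori_self hx] at h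
  rcases eq_or_lt_of_le hs with h0 | h0
  · have : t = 1 := by linarith
    subst this
    rw [← h0] at h
    linarith
  · nlinarith [mul_pos h0 h1, mul_nonneg ht h2.le]

lemma disj_neg {a b c d x : ℝ × ℝ} (h1 : ori a b c < 0) (h2 : ori a b d < 0)
    (hx : x ∈ segment ℝ a b) (hy : x ∈ segment ℝ c d) : False := by
  obtain ⟨s, t, hs, ht, hst, h⟩ := ori_seg (a := a) (b := b) hy
  rw [ori_self hx] at h
  rcases eq_or_lt_of_le hs with h0 | h0
  · have : t = 1 := by linarith
    subst this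
    rw [← h0] at h
    linarith
  · nlinarith [mul_pos_of_neg_of_neg (neg_neg_of_pos h0) h1, mul_nonpos_of_nonneg_of_nonpos ht h2.le]

/-- two segments issuing from `s` in non-parallel directions meet only in `s` -/
lemma share {s p q x : ℝ × ℝ} (h : ori s p q ≠ 0) (hx : x ∈ segment ℝ s p)
    (hy : x ∈ segment ℝ s q) : x = s := by
  have h0 := ori_self hx
  obtain ⟨u, v, hu, hv, huv, rfl⟩ := hy
  have hu' : u = 1 - v := by linarith
  subst hu'
  have h1 : ori s p ((1 - v) • s + v • q) = v * ori s p q := by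
    simp only [ori, Prod.fst_add, Prod.snd_add, Prod.smul_fst, Prod.smul_snd, smul_eq_mul]
    ring
  rw [h1] at h0
  have hv0 : v = 0 := by
    rcases mul_eq_zero.mp h0 with h2 | h2
    · exact h2
    · exact absurd h2 h
  subst hv0
  simp

/-- positive orientation, tested in `ℕ` -/
def P (ax ay bx b_y cx cy : ℕ) : Bool :=
  Nat.blt (ax * cy + bx * ay + cx * b_y) (ax * b_y + bx * cy + cx * ay)

/-- negative orientation, tested in `ℕ` -/
def Ng (ax ay bx b_y cx cy : ℕ) : Bool :=
  Nat.blt (ax * b_y + bx * cy + cx * ay) (ax * cy + bx * ay + cx * b_y)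

lemma P_sound {ax ay bx b_y cx cy : ℕ} (h : P ax ay bx b_y cx cy = true) :
    0 < ori ((ax : ℝ), (ay : ℝ)) ((bx : ℝ), (b_y : ℝ)) ((cx : ℝ), (cy : ℝ)) := by
  have h1 : ax * cy + bx * ay + cx * b_y < ax * b_y + bx * cy + cx * ay := by
    simpa [P, Nat.blt_eq] using h
  have h2 : ((ax * cy + bx * ay + cx * b_y : ℕ) : ℝ) < ((ax * b_y + bx * cy + cx * ay : ℕ) : ℝ) := by
    exact_mod_cast h1
  push_cast at h2
  simp only [ori]
  nlinarith

lemma Ng_sound {ax ay bx b_y cx cy : ℕ} (h : Ng ax ay bx b_y cx cy = true) :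
    ori ((ax : ℝ), (ay : ℝ)) ((bx : ℝ), (b_y : ℝ)) ((cx : ℝ), (cy : ℝ)) < 0 := by
  have h1 : ax * b_y + bx * cy + cx * ay < ax * cy + bx * ay + cx * b_y := by
    simpa [Ng, Nat.blt_eq] using h
  have h2 : ((ax * b_y + bx * cy + cx * ay : ℕ) : ℝ) < ((ax * cy + bx * ay + cx * b_y : ℕ) : ℝ) := by
    exact_mod_cast h1
  push_cast at h2
  simp only [ori]
  nlinarith

/-- An edge with the codes and the coordinates of its two end vertices. -/
abbrev Tup : Type := ℕ × ℕ × ℕ × ℕ × ℕ × ℕ

/-- The test that two edges of the list do not cross. -/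
def ok : Tup → Tup → Bool
  | (u, v, ax, ay, bx, b_y), (w, z, cx, cy, dx, dy) =>
    if u = w ∧ v = z then true
    else if u = w then P ax ay bx b_y dx dy || Ng ax ay bx b_y dx dy
    else if u = z then P ax ay bx b_y cx cy || Ng ax ay bx b_y cx cy
    else if v = w then P bx b_y ax ay dx dy || Ng bx b_y ax ay dx dy
    else if v = z then P bx b_y ax ay cx cy || Ng bx b_y ax ay cx cy
    else (P ax ay bx b_y cx cy && P ax ay bx b_y dx dy) ||
      (Ng ax ay bx b_y cx cy && Ng ax ay bx b_y dx dy) ||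
      (P cx cy dx dy ax ay && P cx cy dx dy bx b_y) ||
      (Ng cx cy dx dy ax ay && Ng cx cy dx dy bx b_y)

/-! ## The graph -/

/-- The vertices: `(i, a)` is vertex `a` of copy `i`. -/
abbrev W : Type := Fin 5 × Fin 19

/-- Adjacency of `R`, by bit masks. -/
def mask : Fin 19 → ℕ := ![95680, 213536, 410640, 640, 4100, 8194, 513, 2057, 262145, 10314, 5,
  66176, 393233, 131617, 32775, 147456, 2051, 45062, 4356]

def rB (a b : Fin 19) : Bool := Nat.testBit (mask a) b.val

def c5 (i j : Fin 5) : Bool := (j == i + 1) || (i == j + 1)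

def adjB (u v : W) : Bool :=
  (u.1 == v.1 && rB u.2 v.2) || (u.2 == 0 && v.2 == 0 && c5 u.1 v.1)

lemma rB_symm : ∀ a b : Fin 19, rB a b = rB b a := by decide +kernel
lemma rB_irrefl : ∀ a : Fin 19, rB a a = false := by decide +kernel
lemma c5_symm : ∀ i j : Fin 5, c5 i j = c5 j i := by decide +kernel
lemma c5_irrefl : ∀ i : Fin 5, c5 i i = false := by decide +kernel

lemma adjB_symm (u v : W) : adjB u v = adjB v u := by
  unfold adjB
  rw [rB_symm u.2 v.2, c5_symm u.1 v.1, Bool.and_comm (u.2 == 0) (v.2 == 0)]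
  congr 2
  exact Bool.beq_comm

/-- The graph. -/
def G : SimpleGraph W where
  Adj u v := adjB u v = true
  symm := ⟨fun u v h => by rw [adjB_symm]; exact h⟩
  loopless := ⟨fun u h => by
    simp [adjB, rB_irrefl, c5_irrefl] at h⟩

lemma adjB_iff (u v : W) : adjB u v = true ↔
    (u.1 = v.1 ∧ rB u.2 v.2 = true) ∨ (u.2 = 0 ∧ v.2 = 0 ∧ c5 u.1 v.1 = true) := by
  simp [adjB, and_assoc]

def ED : List (ℕ × ℕ × ℕ × ℕ × ℕ × ℕ) :=
  [(0, 6, 1800, 500, 1474, 145), (0, 7, 1800, 500, 1502, 111), (0, 8, 1800, 500, 1587, 542),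
   (0, 10, 1800, 500, 1600, 555), (0, 12, 1800, 500, 1579, 492), (0, 13, 1800, 500, 1512, 295),
   (0, 14, 1800, 500, 1104, 924), (0, 16, 1800, 500, 1068, 975), (0, 19, 1800, 500, 1500, 1500),
   (0, 76, 1800, 500, 1800, 4500), (1, 5, 1337, 593, 1399, 492), (1, 9, 1337, 593, 1072, 931),
   (1, 14, 1337, 593, 1104, 924), (1, 16, 1337, 593, 1068, 975), (1, 17, 1337, 593, 1521, 334),
   (2, 4, 1568, 587, 1561, 518), (2, 10, 1568, 587, 1600, 555), (2, 14, 1568, 587, 1104, 924),
   (2, 17, 1568, 587, 1521, 334), (2, 18, 1568, 587, 1600, 509), (3, 7, 1466, 153, 1502, 111),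
   (3, 9, 1466, 153, 1072, 931), (4, 12, 1561, 518, 1579, 492), (5, 13, 1399, 492, 1512, 295),
   (6, 9, 1474, 145, 1072, 931), (7, 11, 1502, 111, 649, 3), (8, 18, 1587, 542, 1600, 509),
   (9, 11, 1072, 931, 649, 3), (9, 13, 1072, 931, 1512, 295), (11, 16, 649, 3, 1068, 975),
   (12, 17, 1579, 492, 1521, 334), (12, 18, 1579, 492, 1600, 509), (13, 17, 1512, 295, 1521, 334),
   (14, 15, 1104, 924, 1194, 804), (15, 17, 1194, 804, 1521, 334),
   (19, 25, 1500, 1500, 1174, 1145), (19, 26, 1500, 1500, 1202, 1111),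
   (19, 27, 1500, 1500, 1287, 1542), (19, 29, 1500, 1500, 1300, 1555),
   (19, 31, 1500, 1500, 1279, 1492), (19, 32, 1500, 1500, 1212, 1295),
   (19, 33, 1500, 1500, 804, 1924), (19, 35, 1500, 1500, 768, 1975),
   (19, 38, 1500, 1500, 1400, 2500), (20, 24, 1037, 1593, 1099, 1492),
   (20, 28, 1037, 1593, 772, 1931), (20, 33, 1037, 1593, 804, 1924),
   (20, 35, 1037, 1593, 768, 1975), (20, 36, 1037, 1593, 1221, 1334),
   (21, 23, 1268, 1587, 1261, 1518), (21, 29, 1268, 1587, 1300, 1555),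
   (21, 33, 1268, 1587, 804, 1924), (21, 36, 1268, 1587, 1221, 1334),
   (21, 37, 1268, 1587, 1300, 1509), (22, 26, 1166, 1153, 1202, 1111),
   (22, 28, 1166, 1153, 772, 1931), (23, 31, 1261, 1518, 1279, 1492),
   (24, 32, 1099, 1492, 1212, 1295), (25, 28, 1174, 1145, 772, 1931),
   (26, 30, 1202, 1111, 349, 1003), (27, 37, 1287, 1542, 1300, 1509),
   (28, 30, 772, 1931, 349, 1003), (28, 32, 772, 1931, 1212, 1295),
   (30, 35, 349, 1003, 768, 1975), (31, 36, 1279, 1492, 1221, 1334),
   (31, 37, 1279, 1492, 1300, 1509), (32, 36, 1212, 1295, 1221, 1334),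
   (33, 34, 804, 1924, 894, 1804), (34, 36, 894, 1804, 1221, 1334),
   (38, 44, 1400, 2500, 1074, 2145), (38, 45, 1400, 2500, 1102, 2111),
   (38, 46, 1400, 2500, 1187, 2542), (38, 48, 1400, 2500, 1200, 2555),
   (38, 50, 1400, 2500, 1179, 2492), (38, 51, 1400, 2500, 1112, 2295),
   (38, 52, 1400, 2500, 704, 2924), (38, 54, 1400, 2500, 668, 2975),
   (38, 57, 1400, 2500, 1500, 3500), (39, 43, 937, 2593, 999, 2492),
   (39, 47, 937, 2593, 672, 2931), (39, 52, 937, 2593, 704, 2924), (39, 54, 937, 2593, 668, 2975),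
   (39, 55, 937, 2593, 1121, 2334), (40, 42, 1168, 2587, 1161, 2518),
   (40, 48, 1168, 2587, 1200, 2555), (40, 52, 1168, 2587, 704, 2924),
   (40, 55, 1168, 2587, 1121, 2334), (40, 56, 1168, 2587, 1200, 2509),
   (41, 45, 1066, 2153, 1102, 2111), (41, 47, 1066, 2153, 672, 2931),
   (42, 50, 1161, 2518, 1179, 2492), (43, 51, 999, 2492, 1112, 2295),
   (44, 47, 1074, 2145, 672, 2931), (45, 49, 1102, 2111, 249, 2003),
   (46, 56, 1187, 2542, 1200, 2509), (47, 49, 672, 2931, 249, 2003),
   (47, 51, 672, 2931, 1112, 2295), (49, 54, 249, 2003, 668, 2975),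
   (50, 55, 1179, 2492, 1121, 2334), (50, 56, 1179, 2492, 1200, 2509),
   (51, 55, 1112, 2295, 1121, 2334), (52, 53, 704, 2924, 794, 2804),
   (53, 55, 794, 2804, 1121, 2334), (57, 63, 1500, 3500, 1174, 3145),
   (57, 64, 1500, 3500, 1202, 3111), (57, 65, 1500, 3500, 1287, 3542),
   (57, 67, 1500, 3500, 1300, 3555), (57, 69, 1500, 3500, 1279, 3492),
   (57, 70, 1500, 3500, 1212, 3295), (57, 71, 1500, 3500, 804, 3924),
   (57, 73, 1500, 3500, 768, 3975), (57, 76, 1500, 3500, 1800, 4500),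
   (58, 62, 1037, 3593, 1099, 3492), (58, 66, 1037, 3593, 772, 3931),
   (58, 71, 1037, 3593, 804, 3924), (58, 73, 1037, 3593, 768, 3975),
   (58, 74, 1037, 3593, 1221, 3334), (59, 61, 1268, 3587, 1261, 3518),
   (59, 67, 1268, 3587, 1300, 3555), (59, 71, 1268, 3587, 804, 3924),
   (59, 74, 1268, 3587, 1221, 3334), (59, 75, 1268, 3587, 1300, 3509),
   (60, 64, 1166, 3153, 1202, 3111), (60, 66, 1166, 3153, 772, 3931),
   (61, 69, 1261, 3518, 1279, 3492), (62, 70, 1099, 3492, 1212, 3295),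
   (63, 66, 1174, 3145, 772, 3931), (64, 68, 1202, 3111, 349, 3003),
   (65, 75, 1287, 3542, 1300, 3509), (66, 68, 772, 3931, 349, 3003),
   (66, 70, 772, 3931, 1212, 3295), (68, 73, 349, 3003, 768, 3975),
   (69, 74, 1279, 3492, 1221, 3334), (69, 75, 1279, 3492, 1300, 3509),
   (70, 74, 1212, 3295, 1221, 3334), (71, 72, 804, 3924, 894, 3804),
   (72, 74, 894, 3804, 1221, 3334), (76, 82, 1800, 4500, 1474, 4145),
   (76, 83, 1800, 4500, 1502, 4111), (76, 84, 1800, 4500, 1587, 4542),
   (76, 86, 1800, 4500, 1600, 4555), (76, 88, 1800, 4500, 1579, 4492),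
   (76, 89, 1800, 4500, 1512, 4295), (76, 90, 1800, 4500, 1104, 4924),
   (76, 92, 1800, 4500, 1068, 4975), (77, 81, 1337, 4593, 1399, 4492),
   (77, 85, 1337, 4593, 1072, 4931), (77, 90, 1337, 4593, 1104, 4924),
   (77, 92, 1337, 4593, 1068, 4975), (77, 93, 1337, 4593, 1521, 4334),
   (78, 80, 1568, 4587, 1561, 4518), (78, 86, 1568, 4587, 1600, 4555),
   (78, 90, 1568, 4587, 1104, 4924), (78, 93, 1568, 4587, 1521, 4334),
   (78, 94, 1568, 4587, 1600, 4509), (79, 83, 1466, 4153, 1502, 4111),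
   (79, 85, 1466, 4153, 1072, 4931), (80, 88, 1561, 4518, 1579, 4492),
   (81, 89, 1399, 4492, 1512, 4295), (82, 85, 1474, 4145, 1072, 4931),
   (83, 87, 1502, 4111, 649, 4003), (84, 94, 1587, 4542, 1600, 4509),
   (85, 87, 1072, 4931, 649, 4003), (85, 89, 1072, 4931, 1512, 4295),
   (87, 92, 649, 4003, 1068, 4975), (88, 93, 1579, 4492, 1521, 4334),
   (88, 94, 1579, 4492, 1600, 4509), (89, 93, 1512, 4295, 1521, 4334),
   (90, 91, 1104, 4924, 1194, 4804), (91, 93, 1194, 4804, 1521, 4334)]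

def pxs : List ℕ := [0,463,232,334,239,401,326,298,213,728,200,1151,221,288,696,606,732,279,200]
def pys : List ℕ := [500,593,587,153,518,492,145,111,542,931,555,3,492,295,924,804,975,334,509]
def xos : List ℕ := [1800,1500,1400,1500,1800]

def cX (u : W) : ℕ := xos.getD u.1.val 0 - pxs.getD u.2.val 0
def cY (u : W) : ℕ := 1000 * u.1.val + pys.getD u.2.val 0
def cd (u : W) : ℕ := 19 * u.1.val + u.2.val

/-- The drawing. -/
noncomputable def dr (u : W) : ℝ × ℝ := ((cX u : ℝ), (cY u : ℝ))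

def tup (u v : W) : Tup := (cd u, cd v, cX u, cY u, cX v, cY v)

lemma cd_inj : Function.Injective cd := by
  rintro ⟨i, a⟩ ⟨j, b⟩ h
  simp only [cd] at h
  have ha := a.isLt
  have hb := b.isLt
  have h1 : i.val = j.val := by omega
  have h2 : a.val = b.val := by omega
  rw [Prod.mk.injEq]
  exact ⟨Fin.ext h1, Fin.ext h2⟩

lemma okAll : ∀ e ∈ ED, ∀ f ∈ ED, ok e f = true := by decide +kernel

lemma memR : ∀ a b : Fin 19, rB a b = true → ∀ i : Fin 5,
    tup (i, a) (i, b) ∈ ED ∨ tup (i, b) (i, a) ∈ ED := by decide +kernel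

lemma memC : ∀ i j : Fin 5, c5 i j = true → tup (i, 0) (j, 0) ∈ ED ∨ tup (j, 0) (i, 0) ∈ ED := by
  decide +kernel

lemma drNat_inj : ∀ u v : W, cX u = cX v → cY u = cY v → u = v := by decide +kernel

lemma dr_inj : Function.Injective dr := by
  intro u v h
  simp only [dr, Prod.mk.injEq, Nat.cast_inj] at h
  exact drNat_inj u v h.1 h.2

lemma mem_ED {u v : W} (h : G.Adj u v) : tup u v ∈ ED ∨ tup v u ∈ ED := by
  have h' : adjB u v = true := h
  rw [adjB_iff] at h'
  obtain ⟨i, a⟩ := u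
  obtain ⟨j, b⟩ := v
  rcases h' with ⟨h1, h2⟩ | ⟨h1, h2, h3⟩
  · simp only at h1 h2
    subst h1
    exact memR a b h2 i
  · simp only at h1 h2 h3
    subst h1 h2
    exact memC i j h3

/-- the segments of `ab` and `cd` meet at most in a common end vertex -/
def Good (a b c d : W) : Prop :=
  ∀ x ∈ segment ℝ (dr a) (dr b), x ∈ segment ℝ (dr c) (dr d) →
    ∃ v : W, (v = a ∨ v = b) ∧ (v = c ∨ v = d) ∧ x = dr v

lemma good_swap1 {a b c d : W} (h : Good a b c d) : Good b a c d := by
  intro x hx hy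
  rw [segment_symm] at hx
  obtain ⟨v, h1, h2, h3⟩ := h x hx hy
  exact ⟨v, h1.symm, h2, h3⟩

lemma good_swap2 {a b c d : W} (h : Good a b c d) : Good a b d c := by
  intro x hx hy
  rw [segment_symm] at hy
  obtain ⟨v, h1, h2, h3⟩ := h x hx hy
  exact ⟨v, h1, h2.symm, h3⟩

lemma ne_of_or {a b c d a' b' : ℕ} {x : ℝ} (hP : P a b c d a' b' = true → 0 < x)
    (hN : Ng a b c d a' b' = true → x < 0)
    (h : (P a b c d a' b' || Ng a b c d a' b') = true) : x ≠ 0 := by
  rcases Bool.or_eq_true _ _ |>.mp h with h | h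
  · exact (hP h).ne'
  · exact (hN h).ne

lemma good_of_mem {a b c d : W} (h1 : tup a b ∈ ED) (h2 : tup c d ∈ ED)
    (hne : s(a, b) ≠ s(c, d)) : Good a b c d := by
  have h := okAll _ h1 _ h2
  simp only [tup, ok] at h
  intro x hx hy
  by_cases e1 : cd a = cd c
  · have e1' := cd_inj e1
    by_cases e2 : cd b = cd d
    · exact absurd (by rw [e1', cd_inj e2]) hne
    · rw [if_neg (fun hh => e2 hh.2), if_pos e1] at h
      subst e1'
      have h3 : ori (dr a) (dr b) (dr d) ≠ 0 := ne_of_or P_sound Ng_sound h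
      exact ⟨a, Or.inl rfl, Or.inl rfl, share h3 hx hy⟩
  · rw [if_neg (fun hh => e1 hh.1), if_neg e1] at h
    by_cases e3 : cd a = cd d
    · rw [if_pos e3] at h
      have e3' := cd_inj e3
      subst e3'
      have h3 : ori (dr a) (dr b) (dr c) ≠ 0 := ne_of_or P_sound Ng_sound h
      rw [segment_symm] at hy
      exact ⟨a, Or.inl rfl, Or.inr rfl, share h3 hx hy⟩
    · rw [if_neg e3] at h
      by_cases e4 : cd b = cd c
      · rw [if_pos e4] at h
        have e4' := cd_inj e4
        subst e4'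
        have h3 : ori (dr b) (dr a) (dr d) ≠ 0 := ne_of_or P_sound Ng_sound h
        rw [segment_symm] at hx
        exact ⟨b, Or.inr rfl, Or.inl rfl, share h3 hx hy⟩
      · rw [if_neg e4] at h
        by_cases e5 : cd b = cd d
        · rw [if_pos e5] at h
          have e5' := cd_inj e5
          subst e5'
          have h3 : ori (dr b) (dr a) (dr c) ≠ 0 := ne_of_or P_sound Ng_sound h
          rw [segment_symm] at hx hy
          exact ⟨b, Or.inr rfl, Or.inr rfl, share h3 hx hy⟩
        · rw [if_neg e5] at h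
          exfalso
          simp only [Bool.or_eq_true, Bool.and_eq_true] at h
          rcases h with ((⟨h3, h4⟩ | ⟨h3, h4⟩) | ⟨h3, h4⟩) | ⟨h3, h4⟩
          · exact disj_pos (P_sound h3) (P_sound h4) hx hy
          · exact disj_neg (Ng_sound h3) (Ng_sound h4) hx hy
          · exact disj_pos (P_sound h3) (P_sound h4) hy hx
          · exact disj_neg (Ng_sound h3) (Ng_sound h4) hy hx

lemma good_of_adj {a b c d : W} (h1 : G.Adj a b) (h2 : G.Adj c d)
    (hne : s(a, b) ≠ s(c, d)) : Good a b c d := by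
  rcases mem_ED h1 with h1 | h1 <;> rcases mem_ED h2 with h2 | h2
  · exact good_of_mem h1 h2 hne
  · refine good_swap2 (good_of_mem h1 h2 ?_)
    rwa [Sym2.eq_swap (a := d)]
  · refine good_swap1 (good_of_mem h1 h2 ?_)
    rwa [Sym2.eq_swap (a := b)]
  · refine good_swap1 (good_swap2 (good_of_mem h1 h2 ?_))
    rwa [Sym2.eq_swap (a := d), Sym2.eq_swap (a := b)]

lemma has_nb : ∀ a : Fin 19, ∃ b : Fin 19, rB a b = true := by decide +kernel

lemma planar : IsPlanar G := by
  refine ⟨dr, dr_inj, ?_, fun a b c d h1 h2 hne => good_of_adj h1 h2 hne⟩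
  intro a b c hab hc
  by_contra hcon
  push Not at hcon
  obtain ⟨e, he⟩ := has_nb c.2
  have hadj : G.Adj c (c.1, e) := by
    show adjB c (c.1, e) = true
    rw [adjB_iff]
    exact Or.inl ⟨rfl, he⟩
  have hne : s(a, b) ≠ s(c, (c.1, e)) := by
    intro h
    have : c ∈ s(a, b) := by rw [h]; exact Sym2.mem_mk_left _ _
    rw [Sym2.mem_iff] at this
    rcases this with h | h
    · exact hcon.1 h
    · exact hcon.2 h
  obtain ⟨v, h1, h2, h3⟩ := good_of_adj hab hadj hne (dr c) hc (left_mem_segment _ _ _)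
  have h4 := dr_inj h3
  subst h4
  rcases h1 with h | h
  · exact hcon.1 h
  · exact hcon.2 h

/-! ## Triangle-freeness -/

lemma rB_tri : ∀ a b c : Fin 19, rB a b = true → rB a c = true → rB b c = true → False := by
  decide +kernel

lemma c5_tri : ∀ a b c : Fin 5, c5 a b = true → c5 a c = true → c5 b c = true → False := by
  decide +kernel

lemma tri (u v w : W) (h1 : G.Adj u v) (h2 : G.Adj u w) (h3 : G.Adj v w) : False := by
  have h1' : adjB u v = true := h1
  have h2' : adjB u w = true := h2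
  have h3' : adjB v w = true := h3
  rw [adjB_iff] at h1' h2' h3'
  obtain ⟨i, a⟩ := u
  obtain ⟨j, b⟩ := v
  obtain ⟨k, c⟩ := w
  simp only at h1' h2' h3'
  rcases h1' with ⟨e1, f1⟩ | ⟨e1, f1, g1⟩ <;> rcases h2' with ⟨e2, f2⟩ | ⟨e2, f2, g2⟩ <;>
    rcases h3' with ⟨e3, f3⟩ | ⟨e3, f3, g3⟩
  · exact rB_tri a b c f1 f2 f3
  · subst e1 e2; rw [c5_irrefl] at g3; exact Bool.noConfusion g3
  · subst e1 e3; rw [c5_irrefl] at g2; exact Bool.noConfusion g2
  · rw [e2, e3, rB_irrefl] at f1; exact Bool.noConfusion f1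
  · subst e2 e3; rw [c5_irrefl] at g1; exact Bool.noConfusion g1
  · rw [e1, f3, rB_irrefl] at f2; exact Bool.noConfusion f2
  · rw [f1, f2, rB_irrefl] at f3; exact Bool.noConfusion f3
  · exact c5_tri i j k g1 g2 g3

lemma cliqueFree : G.CliqueFree 3 := by
  intro s hs
  rw [is3Clique_iff] at hs
  obtain ⟨a, b, c, hab, hac, hbc, -⟩ := hs
  exact tri a b c hab hac hbc

/-! ## Induced paths on four vertices -/

/-- `a b c d` is an induced path of `H`. -/
def IP4 {V : Type} (H : SimpleGraph V) (a b c d : V) : Prop :=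
  H.Adj a b ∧ H.Adj b c ∧ H.Adj c d ∧ ¬ H.Adj a c ∧ ¬ H.Adj b d ∧ ¬ H.Adj a d

lemma not_cograph {V : Type} {H : SimpleGraph V} {S : Set V} {a b c d : V}
    (h : IP4 H a b c d) (ha : a ∈ S) (hb : b ∈ S) (hc : c ∈ S) (hd : d ∈ S) :
    ¬ IsCograph (H.induce S) := by
  intro hco
  obtain ⟨h1, h2, h3, h4, h5, h6⟩ := h
  have hac : a ≠ c := by rintro rfl; exact h6 h3
  have had : a ≠ d := by rintro rfl; exact h4 h3.symm
  have hbd : b ≠ d := by rintro rfl; exact h6 h1
  have e : pathGraph 4 ↪g H.induce S :=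
    { toFun := ![⟨a, ha⟩, ⟨b, hb⟩, ⟨c, hc⟩, ⟨d, hd⟩]
      inj' := by
        intro i j hij
        fin_cases i <;> fin_cases j <;>
          simp [h1.ne, h1.ne.symm, h2.ne, h2.ne.symm, h3.ne, h3.ne.symm, hac, hac.symm, had,
            had.symm, hbd, hbd.symm] at hij ⊢
      map_rel_iff' := by
        intro i j
        fin_cases i <;> fin_cases j <;>
          simp [pathGraph_adj, h1, h1.symm, h2, h2.symm, h3, h3.symm, h4, h5, h6,
            H.adj_comm c a, H.adj_comm d b, H.adj_comm d a] }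
  exact hco.false e

lemma cograph_of_indep {V : Type} {H : SimpleGraph V} {S : Set V}
    (h : ∀ a ∈ S, ∀ b ∈ S, ¬ H.Adj a b) : IsCograph (H.induce S) := by
  refine ⟨fun e => ?_⟩
  have h1 : (H.induce S).Adj (e 0) (e 1) := by
    rw [e.map_adj_iff]
    simp [pathGraph_adj]
  exact h _ (e 0).2 _ (e 1).2 h1

/-! ## The certificate -/

/-- A branching proof: `N v t f` branches on the colour of `v`, `L a b c d` names a
monochromatic induced path. -/
inductive T
  | L : Fin 19 → Fin 19 → Fin 19 → Fin 19 → T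
  | N : Fin 19 → T → T → T

def isP (a b c d : Fin 19) : Bool :=
  rB a b && rB b c && rB c d && !rB a c && !rB b d && !rB a d

def look (l : List (Fin 19 × Bool)) (a : Fin 19) : Option Bool :=
  match l with
  | [] => none
  | (b, x) :: l => if a = b then some x else look l a

def chk : T → List (Fin 19 × Bool) → Bool
  | .L a b c d, l => isP a b c d &&
      ((look l a == some true && look l b == some true && look l c == some true &&
        look l d == some true) ||
       (look l a == some false && look l b == some false && look l c == some false &&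
        look l d == some false))
  | .N v t f, l => chk t ((v, true) :: l) && chk f ((v, false) :: l)

/-- a monochromatic induced path of `R` -/
def Mono (χ : Fin 19 → Bool) : Prop :=
  ∃ a b c d : Fin 19, isP a b c d = true ∧ χ a = χ b ∧ χ b = χ c ∧ χ c = χ d

lemma look_sound {χ : Fin 19 → Bool} {l : List (Fin 19 × Bool)} (hl : ∀ p ∈ l, χ p.1 = p.2)
    {a : Fin 19} {x : Bool} (h : look l a = some x) : χ a = x := by
  induction l with
  | nil => simp [look] at h
  | cons p l ih =>
    obtain ⟨b, y⟩ := p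
    simp only [look] at h
    split_ifs at h with hab
    · subst hab
      have := hl (a, y) (by simp)
      simp only [Option.some.injEq] at h
      rw [← h]
      exact this
    · exact ih (fun p hp => hl p (by simp [hp])) h

lemma chk_sound {χ : Fin 19 → Bool} (t : T) : ∀ l : List (Fin 19 × Bool),
    (∀ p ∈ l, χ p.1 = p.2) → chk t l = true → Mono χ := by
  induction t with
  | L a b c d =>
    intro l hl h
    simp only [chk, Bool.and_eq_true, Bool.or_eq_true, beq_iff_eq] at h
    obtain ⟨h0, h | h⟩ := h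
    · obtain ⟨⟨⟨h1, h2⟩, h3⟩, h4⟩ := h
      refine ⟨a, b, c, d, h0, ?_⟩
      rw [look_sound hl h1, look_sound hl h2, look_sound hl h3, look_sound hl h4]
      simp
    · obtain ⟨⟨⟨h1, h2⟩, h3⟩, h4⟩ := h
      refine ⟨a, b, c, d, h0, ?_⟩
      rw [look_sound hl h1, look_sound hl h2, look_sound hl h3, look_sound hl h4]
      simp
  | N v t f iht ihf =>
    intro l hl h
    simp only [chk, Bool.and_eq_true] at h
    cases hv : χ v with
    | true =>
      refine iht ((v, true) :: l) ?_ h.1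
      intro p hp
      rcases List.mem_cons.mp hp with h1 | h1
      · rw [h1]; exact hv
      · exact hl p h1
    | false =>
      refine ihf ((v, false) :: l) ?_ h.2
      intro p hp
      rcases List.mem_cons.mp hp with h1 | h1
      · rw [h1]; exact hv
      · exact hl p h1

def tree : T :=
  .N 17 (.N 1 (.N 2 (.N 4 (.L 4 2 17 1) (.N 18 (.L 18 2 17 1) (.L 4 12 18 8)))
    (.N 4 (.N 15 (.N 5 (.L 5 1 17 15) (.N 9 (.L 9 1 17 15) (.L 6 9 13 5))) (.L 10 2 14 15))
      (.L 10 2 4 12)))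
    (.N 2 (.N 5 (.N 9 (.N 11 (.N 15 (.N 4 (.L 4 2 17 15) (.N 18 (.L 18 2 17 15) (.L 4 12 18 8)))
      (.L 16 1 14 15)) (.L 14 1 16 11)) (.L 16 1 9 13)) (.L 16 1 5 13)) (.L 16 1 14 2)))
    (.N 1 (.N 2 (.N 4 (.N 5 (.N 9 (.N 3 (.L 5 1 9 3) (.N 11 (.L 5 1 9 11) (.L 3 7 11 16)))
      (.L 9 13 17 12)) (.L 5 13 17 12)) (.L 4 12 17 13)) (.L 10 2 17 12)) (.L 16 1 17 12))

def start : List (Fin 19 × Bool) :=
  [(0, true), (6, false), (7, false), (8, false), (10, false), (12, false), (13, false),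
    (14, false), (16, false)]

lemma chk_tree : chk tree start = true := by decide +kernel

lemma start_nb : ∀ p ∈ start, p = (0, true) ∨ (rB 0 p.1 = true ∧ p.2 = false) := by
  decide +kernel

/-- the root of `R` is never isolated in its colour class -/
lemma gadget (χ : Fin 19 → Bool) (h : ¬ Mono χ) : ∃ p : Fin 19, rB 0 p = true ∧ χ p = χ 0 := by
  by_contra hcon
  push Not at hcon
  apply h
  cases h0 : χ 0 with
  | true =>
    refine chk_sound tree start ?_ chk_tree
    intro p hp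
    rcases start_nb p hp with h1 | ⟨h1, h2⟩
    · rw [h1]; exact h0
    · have := hcon p.1 h1
      rw [h0] at this
      rw [h2]
      simpa using this
  | false =>
    have hm : Mono (fun a => !χ a) := by
      refine chk_sound tree start ?_ chk_tree
      intro p hp
      rcases start_nb p hp with h1 | ⟨h1, h2⟩
      · rw [h1]; simp [h0]
      · have := hcon p.1 h1
        rw [h0] at this
        rw [h2]
        simpa using this
    obtain ⟨a, b, c, d, hP, h1, h2, h3⟩ := hm
    exact ⟨a, b, c, d, hP, by simpa using h1, by simpa using h2, by simpa using h3⟩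

lemma odd5 : ∀ f : Fin 5 → Bool, ∃ i : Fin 5, f i = f (i + 1) := by decide +kernel

lemma ne_succ5 : ∀ i : Fin 5, i ≠ i + 1 := by decide

lemma adj_copy {i : Fin 5} {a b : Fin 19} : G.Adj (i, a) (i, b) ↔ rB a b = true := by
  show adjB (i, a) (i, b) = true ↔ _
  rw [adjB_iff]
  simp [c5_irrefl]

lemma adj_diff {i j : Fin 5} (hij : i ≠ j) {a b : Fin 19} :
    G.Adj (i, a) (j, b) ↔ a = 0 ∧ b = 0 ∧ c5 i j = true := by
  show adjB (i, a) (j, b) = true ↔ _
  rw [adjB_iff]
  simp [hij]

lemma isP_iff {i : Fin 5} {a b c d : Fin 19} (h : isP a b c d = true) :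
    IP4 G (i, a) (i, b) (i, c) (i, d) := by
  simp only [isP, Bool.and_eq_true, Bool.not_eq_true'] at h
  simp only [IP4, adj_copy]
  simp [h]

/-- every two-colouring of `G` has a monochromatic induced path on four vertices -/
lemma two_col (χ : W → Bool) : ∃ a b c d : W, IP4 G a b c d ∧
    χ a = χ b ∧ χ b = χ c ∧ χ c = χ d := by
  by_contra hcon
  have hno : ∀ i : Fin 5, ¬ Mono (fun a => χ (i, a)) := by
    rintro i ⟨a, b, c, d, hP, h1, h2, h3⟩
    exact hcon ⟨(i, a), (i, b), (i, c), (i, d), isP_iff hP, h1, h2, h3⟩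
  obtain ⟨i, hi⟩ := odd5 (fun i => χ (i, 0))
  obtain ⟨p, hp1, hp2⟩ := gadget _ (hno i)
  obtain ⟨q, hq1, hq2⟩ := gadget _ (hno (i + 1))
  have hne : i ≠ i + 1 := ne_succ5 i
  have hp0 : p ≠ 0 := by
    rintro rfl; rw [rB_irrefl] at hp1; exact Bool.noConfusion hp1
  have hq0 : q ≠ 0 := by
    rintro rfl; rw [rB_irrefl] at hq1; exact Bool.noConfusion hq1
  have hc : c5 i (i + 1) = true := by simp [c5]
  refine hcon ⟨(i, p), (i, 0), (i + 1, 0), (i + 1, q), ⟨?_, ?_, ?_, ?_, ?_, ?_⟩, hp2, hi, hq2.symm⟩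
  · rw [adj_copy, rB_symm]; exact hp1
  · rw [adj_diff hne]; exact ⟨rfl, rfl, hc⟩
  · rw [adj_copy]; exact hq1
  · rw [adj_diff hne]; exact fun h => hp0 h.1
  · rw [adj_diff hne]; exact fun h => hq0 h.2.1
  · rw [adj_diff hne]; exact fun h => hp0 h.1

lemma not_two : ¬ CColorable G 2 := by
  rintro ⟨χ, hχ⟩
  obtain ⟨a, b, c, d, hP, h1, h2, h3⟩ := two_col (fun v => decide (χ v = 0))
  have key : ∀ u v : W, decide (χ u = 0) = decide (χ v = 0) → χ u = χ v := by
    intro u v h
    rw [decide_eq_decide] at h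
    generalize χ u = x at h
    generalize χ v = y at h
    revert x y
    decide
  have h1' := key _ _ h1
  have h2' := key _ _ h2
  have h3' := key _ _ h3
  refine not_cograph hP (S := {v | χ v = χ a}) ?_ ?_ ?_ ?_ (hχ (χ a))
  · rfl
  · exact h1'.symm
  · exact (h1'.trans h2').symm
  · exact (h1'.trans (h2'.trans h3')).symm

lemma mono_col {V : Type} {H : SimpleGraph V} {k m : ℕ} (hkm : k ≤ m) (h : CColorable H k) :
    CColorable H m := by
  obtain ⟨χ, hχ⟩ := h
  refine ⟨fun v => Fin.castLE hkm (χ v), fun i => ?_⟩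
  by_cases hi : i.val < k
  · have : {v | Fin.castLE hkm (χ v) = i} = {v | χ v = ⟨i.val, hi⟩} := by
      ext v
      simp [Fin.ext_iff]
    rw [this]
    exact hχ _
  · refine cograph_of_indep ?_
    intro a ha
    exfalso
    simp only [Set.mem_ofPred_eq, Fin.ext_iff, Fin.val_castLE] at ha
    exact hi (ha ▸ (χ a).isLt)

def base : Fin 19 → Fin 3 := ![0,0,0,0,1,1,2,1,2,1,1,0,2,2,1,0,1,1,1]
def sh : Fin 5 → Fin 3 := ![0,1,0,1,2]
def col (u : W) : Fin 3 := base u.2 + sh u.1

lemma base_proper : ∀ a b : Fin 19, rB a b = true → base a ≠ base b := by decide +kernel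
lemma sh_proper : ∀ i j : Fin 5, c5 i j = true → sh i ≠ sh j := by decide +kernel

lemma three : CColorable G 3 := by
  refine ⟨col, fun i => cograph_of_indep ?_⟩
  rintro ⟨j, a⟩ h1 ⟨k, b⟩ h2 hadj
  simp only [Set.mem_ofPred_eq] at h1 h2
  have h3 : col (j, a) = col (k, b) := by rw [h1, h2]
  have h4 : adjB (j, a) (k, b) = true := hadj
  rw [adjB_iff] at h4
  simp only [col] at h3 h4
  rcases h4 with ⟨e1, e2⟩ | ⟨e1, e2, e3⟩
  · subst e1
    exact base_proper a b e2 (add_right_cancel h3)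
  · subst e1 e2
    exact sh_proper j k e3 (add_left_cancel h3)

lemma cNum_eq : cNum G = 3 := by
  unfold cNum
  apply le_antisymm
  · exact Nat.sInf_le three
  · refine le_csInf ⟨3, three⟩ ?_
    intro k hk
    by_contra hlt
    push Not at hlt
    exact not_two (mono_col (by omega) hk)

/-- There is a planar triangle-free graph whose c-chromatic number is exactly three. -/
theorem result : ∃ (V : Type) (_ : Fintype V) (H : SimpleGraph V),
    IsPlanar H ∧ H.CliqueFree 3 ∧ cNum H = 3 :=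
  ⟨W, inferInstance, G, planar, cliqueFree, cNum_eq⟩

end Pool.Agent.Results.MP_b5aa49_co.PlanarTriangleFreeThree
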